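import Mathlib
import Pool.Agent.W42.Joints.Conf2

/-!
Plane arrangements with few missing joints are close to generic ones.
-/

set_option autoImplicit false

namespace Pool.Agent.Y823.JT

open Module Pool.Agent.W42.Joints

/-- the planes of `H` through `p` -/
noncomputable def thr (H : Finset Flat) (p : E3) : Finset Flat := by
  classical exact H.filter (fun P => p ∈ P)

lemma mem_thr {H : Finset Flat} {p : E3} {P : Flat} : P ∈ thr H p ↔ P ∈ H ∧ p ∈ P := by
  classical
  unfold thr
  rw [Finset.mem_filter]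

/-- an arrangement of planes, no two parallel, no three through a line -/
structure Arr (H : Finset Flat) : Prop where
  pl : ∀ P ∈ H, IsPlane P
  par : ∀ P ∈ H, ∀ Q ∈ H, P ≠ Q → P.direction ≠ Q.direction
  two : ∀ l, IsLine l → {P ∈ (H : Set Flat) | l ≤ P}.ncard ≤ 2

variable {H : Finset Flat}

lemma joint_thr (hH : Arr H) {p : E3} (hp : IsJoint (linesOf (H : Set Flat)) p) :
    3 ≤ (thr H p).card := by
  classical
  obtain ⟨l, hl, v, hv, hind⟩ := hp
  choose P hP Q hQ hne hlab using fun i => (hl i).1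
  have hpl : ∀ i, p ∈ P i ⊓ Q i := fun i => by
    have := (hl i).2
    rw [hlab i] at this
    exact this
  have hPS : ∀ i, P i ∈ thr H p := fun i => mem_thr.2 ⟨hP i, (hpl i).1⟩
  have hQS : ∀ i, Q i ∈ thr H p := fun i => mem_thr.2 ⟨hQ i, (hpl i).2⟩
  by_contra hcon
  push Not at hcon
  have hsub : ({P 0, Q 0} : Finset Flat) ⊆ thr H p := by
    intro x hx
    rw [Finset.mem_insert, Finset.mem_singleton] at hx
    rcases hx with rfl | rfl
    · exact hPS 0
    · exact hQS 0
  have hcard : ({P 0, Q 0} : Finset Flat).card = 2 := Finset.card_pair (hne 0)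
  have heq : ({P 0, Q 0} : Finset Flat) = thr H p :=
    Finset.eq_of_subset_of_card_le hsub (by rw [hcard]; omega)
  have hline : IsLine (P 0 ⊓ Q 0) :=
    isLine_inf_of_plane (hH.pl _ (hP 0)) (hH.pl _ (hQ 0)) (hH.par _ (hP 0) _ (hQ 0) (hne 0))
  have hall : ∀ i, P i ⊓ Q i = P 0 ⊓ Q 0 := by
    intro i
    have h3 := hPS i
    have h4 := hQS i
    rw [← heq, Finset.mem_insert, Finset.mem_singleton] at h3 h4
    have h5 := hne i
    rcases h3 with h3 | h3 <;> rcases h4 with h4 | h4
    · exact absurd (h3.trans h4.symm) h5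
    · rw [h3, h4]
    · rw [h3, h4, inf_comm]
    · exact absurd (h3.trans h4.symm) h5
  have hdir : ∀ i, v i ∈ (P 0 ⊓ Q 0).direction := by
    intro i
    have h1 := hv i
    have h2 : l i = P 0 ⊓ Q 0 := (hlab i).trans (hall i)
    rw [h2] at h1
    exact h1
  have hle : Submodule.span ℝ (Set.range v) ≤ (P 0 ⊓ Q 0).direction := by
    rw [Submodule.span_le]
    rintro x ⟨i, rfl⟩
    exact hdir i
  have h6 := Submodule.finrank_mono hle
  rw [finrank_span_eq_card hind, hline.2] at h6
  simp at h6

/-- three planes have at most one common point -/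
lemma unique_pt (hH : Arr H) {p q : E3} {s : Finset Flat} (hs : s.card = 3)
    (hp : s ⊆ thr H p) (hq : s ⊆ thr H q) : p = q := by
  classical
  by_contra hne
  have hline : IsLine (affineSpan ℝ ({p, q} : Set E3)) := by
    constructor
    · intro h
      have : p ∈ affineSpan ℝ ({p, q} : Set E3) := mem_affineSpan ℝ (by simp)
      rw [h] at this
      exact this
    · rw [direction_affineSpan, vectorSpan_pair]
      exact finrank_span_singleton (by rw [vsub_ne_zero]; exact hne)
  have h2 := hH.two _ hline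
  have hsub : (s : Set Flat) ⊆ {P ∈ (H : Set Flat) | affineSpan ℝ ({p, q} : Set E3) ≤ P} := by
    intro P hP
    have h3 := mem_thr.1 (hp hP)
    have h4 := mem_thr.1 (hq hP)
    refine ⟨h3.1, ?_⟩
    rw [affineSpan_le]
    intro x hx
    rw [Set.mem_insert_iff, Set.mem_singleton_iff] at hx
    rcases hx with rfl | rfl
    · exact h3.2
    · exact h4.2
  have h5 := Set.ncard_le_ncard hsub (H.finite_toSet.subset fun x hx => hx.1)
  rw [Set.ncard_coe_finset, hs] at h5
  omega

/-- a common point of the planes in `s` -/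
noncomputable def cpt (s : Finset Flat) : E3 := by
  classical exact if h : ∃ p, ∀ P ∈ s, p ∈ P then h.choose else 0

/-- the points on at least three planes -/
noncomputable def tri (H : Finset Flat) : Finset E3 := by
  classical exact ((H.powersetCard 3).filter (fun s => ∃ p, ∀ P ∈ s, p ∈ P)).image cpt

lemma mem_tri (hH : Arr H) {p : E3} : p ∈ tri H ↔ 3 ≤ (thr H p).card := by
  classical
  unfold tri
  rw [Finset.mem_image]
  constructor
  · rintro ⟨s, hs, rfl⟩
    rw [Finset.mem_filter, Finset.mem_powersetCard] at hs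
    obtain ⟨⟨hs1, hs2⟩, hs3⟩ := hs
    have : s ⊆ thr H (cpt s) := by
      intro P hP
      rw [mem_thr]
      refine ⟨hs1 hP, ?_⟩
      unfold cpt
      rw [dif_pos hs3]
      exact hs3.choose_spec P hP
    rw [← hs2]
    exact Finset.card_le_card this
  · intro h
    obtain ⟨s, hsS, hs3⟩ := Finset.exists_subset_card_eq h
    have hex : ∃ q, ∀ P ∈ s, q ∈ P := ⟨p, fun P hP => (mem_thr.1 (hsS hP)).2⟩
    refine ⟨s, ?_, ?_⟩
    · rw [Finset.mem_filter, Finset.mem_powersetCard]
      exact ⟨⟨fun P hP => (mem_thr.1 (hsS hP)).1, hs3⟩, hex⟩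
    · apply unique_pt hH hs3 _ hsS
      intro P hP
      rw [mem_thr]
      refine ⟨(mem_thr.1 (hsS hP)).1, ?_⟩
      unfold cpt
      rw [dif_pos hex]
      exact hex.choose_spec P hP

lemma numJoints_le_tri (hH : Arr H) : numJoints (linesOf (H : Set Flat)) ≤ (tri H).card := by
  unfold numJoints
  rw [← Set.ncard_coe_finset]
  apply Set.ncard_le_ncard _ (Finset.finite_toSet _)
  intro p hp
  exact Finset.mem_coe.2 ((mem_tri hH).2 (joint_thr hH hp))

lemma sum_choose (hH : Arr H) : ∑ p ∈ tri H, (thr H p).card.choose 3 ≤ H.card.choose 3 := by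
  classical
  have h1 : ((tri H).biUnion fun p => (thr H p).powersetCard 3).card =
      ∑ p ∈ tri H, ((thr H p).powersetCard 3).card := by
    apply Finset.card_biUnion
    intro p _ q _ hpq
    rw [Function.onFun, Finset.disjoint_left]
    intro s hs hs'
    rw [Finset.mem_powersetCard] at hs hs'
    exact hpq (unique_pt hH hs.2 hs.1 hs'.1)
  have h2 : ((tri H).biUnion fun p => (thr H p).powersetCard 3) ⊆ H.powersetCard 3 := by
    intro s hs
    rw [Finset.mem_biUnion] at hs
    obtain ⟨p, _, hs⟩ := hs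
    rw [Finset.mem_powersetCard] at hs ⊢
    exact ⟨fun P hP => (mem_thr.1 (hs.1 hP)).1, hs.2⟩
  have h3 := Finset.card_le_card h2
  rw [h1, Finset.card_powersetCard] at h3
  simpa [Finset.card_powersetCard] using h3

lemma sub_three_le (k : ℕ) (hk : 3 ≤ k) : k - 3 + 1 ≤ k.choose 3 := by
  induction k, hk using Nat.le_induction with
  | base => decide
  | succ k hk ih =>
    have h1 : (k + 1).choose 3 = k.choose 2 + k.choose 3 := Nat.choose_succ_succ k 2
    have h2 : 0 < k.choose 2 := Nat.choose_pos (by omega)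
    omega

/-- few planes have to be removed -/
theorem exists_generic (hH : Arr H) : ∃ H' : Finset Flat, H' ⊆ H ∧
    (∀ p : E3, {P ∈ (H' : Set Flat) | p ∈ P}.ncard ≤ 3) ∧
    (H.card - H'.card) + numJoints (linesOf (H : Set Flat)) ≤ H.card.choose 3 := by
  classical
  have hR : ∀ p : E3, ∃ R : Finset Flat, R ⊆ thr H p ∧ R.card = (thr H p).card - 3 := fun p =>
    Finset.exists_subset_card_eq (by omega)
  choose R hR1 hR2 using hR
  set U : Finset Flat := (tri H).biUnion R with hU
  refine ⟨H \ U, Finset.sdiff_subset, ?_, ?_⟩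
  · intro p
    have hset : {P ∈ ((H \ U : Finset Flat) : Set Flat) | p ∈ P} =
        (((thr H p) \ U : Finset Flat) : Set Flat) := by
      ext P
      simp only [Set.mem_ofPred_eq, Finset.mem_coe, Finset.mem_sdiff, mem_thr]
      tauto
    rw [hset, Set.ncard_coe_finset]
    by_cases h3 : 3 ≤ (thr H p).card
    · have hp : p ∈ tri H := (mem_tri hH).2 h3
      have hsub : (thr H p) \ U ⊆ (thr H p) \ R p := by
        apply Finset.sdiff_subset_sdiff le_rfl
        rw [hU]
        exact Finset.subset_biUnion_of_mem R hp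
      refine (Finset.card_le_card hsub).trans ?_
      rw [Finset.card_sdiff_of_subset (hR1 p), hR2 p]
      omega
    · refine (Finset.card_le_card Finset.sdiff_subset).trans ?_
      omega
  · have hUH : U ⊆ H := by
      intro P hP
      rw [hU, Finset.mem_biUnion] at hP
      obtain ⟨p, _, hP⟩ := hP
      exact (mem_thr.1 (hR1 p hP)).1
    have h1 : (H \ U).card = H.card - U.card := Finset.card_sdiff_of_subset hUH
    have h2 : U.card ≤ H.card := Finset.card_le_card hUH
    have h3 : U.card + (tri H).card ≤ ∑ p ∈ tri H, (thr H p).card.choose 3 := by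
      have h4 : U.card ≤ ∑ p ∈ tri H, ((thr H p).card - 3) := by
        refine Finset.card_biUnion_le.trans (Finset.sum_le_sum fun p _ => ?_)
        rw [hR2 p]
      calc U.card + (tri H).card ≤ ∑ p ∈ tri H, ((thr H p).card - 3) + ∑ p ∈ tri H, 1 := by
            rw [Finset.sum_const, smul_eq_mul, mul_one]
            omega
        _ = ∑ p ∈ tri H, ((thr H p).card - 3 + 1) := Finset.sum_add_distrib.symm
        _ ≤ ∑ p ∈ tri H, (thr H p).card.choose 3 :=
            Finset.sum_le_sum fun p hp => sub_three_le _ ((mem_tri hH).1 hp)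
    have h5 := sum_choose hH
    have h6 := numJoints_le_tri hH
    omega

/-- the change of the set of lines -/
theorem symmDiff_le {H' : Finset Flat} (h : H' ⊆ H) :
    (symmDiff (linesOf (H : Set Flat)) (linesOf (H' : Set Flat))).ncard ≤
      (H.card - H'.card) * H.card := by
  classical
  have hsub : symmDiff (linesOf (H : Set Flat)) (linesOf (H' : Set Flat)) ⊆
      ((((H \ H') ×ˢ H).image (fun x => x.1 ⊓ x.2) : Finset Flat) : Set Flat) := by
    rintro l (⟨⟨P, hP, Q, hQ, hne, rfl⟩, h2⟩ | ⟨⟨P, hP, Q, hQ, hne, rfl⟩, h2⟩)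
    · rw [Finset.mem_coe, Finset.mem_image]
      by_cases hP' : P ∈ H'
      · by_cases hQ' : Q ∈ H'
        · exact absurd ⟨P, hP', Q, hQ', hne, rfl⟩ h2
        · exact ⟨(Q, P), Finset.mem_product.2 ⟨Finset.mem_sdiff.2 ⟨hQ, hQ'⟩, hP⟩, inf_comm _ _⟩
      · exact ⟨(P, Q), Finset.mem_product.2 ⟨Finset.mem_sdiff.2 ⟨hP, hP'⟩, hQ⟩, rfl⟩
    · exact absurd ⟨P, h hP, Q, h hQ, hne, rfl⟩ h2
  refine (Set.ncard_le_ncard hsub (Finset.finite_toSet _)).trans ?_
  rw [Set.ncard_coe_finset]
  refine Finset.card_image_le.trans ?_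
  rw [Finset.card_product, Finset.card_sdiff_of_subset h]

end Pool.Agent.Y823.JT
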