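import Mathlib
import Pool.Agent.W42.Joints.Asym

/-!
The exact distance of the block configurations from the generic sets, up to a constant.
-/

set_option autoImplicit false

namespace Pool.Agent.Y823.JT

open Module Pool.Agent.W42.Joints

/-- The number of common lines. -/
lemma common_le' {K B : ℕ} (hK : 0 < K) {H : Finset Flat} (hpl : ∀ P ∈ H, IsPlane P)
    {H1 H2 : Finset Flat} (hH1 : ∀ P, P ∈ H1 ↔ P ∈ H ∧ P ∈ HH K B)
    (hH2 : ∀ P, P ∈ H2 ↔ P ∈ H ∧ P ∉ HH K B) :
    (LL K B ∩ linesOf (H : Set Flat)).ncard ≤ H2.card * K + H1.card.choose 2 := by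
  classical
  have hsub : LL K B ∩ linesOf (H : Set Flat) ⊆
      (⋃ S ∈ H2, {l ∈ LL K B | l ≤ S}) ∪ linesOf (H1 : Set Flat) := by
    rintro l ⟨hl, P, hP, Q, hQ, hne, rfl⟩
    by_cases hP1 : P ∈ HH K B
    · by_cases hQ1 : Q ∈ HH K B
      · right
        exact ⟨P, Finset.mem_coe.2 ((hH1 P).2 ⟨hP, hP1⟩), Q,
          Finset.mem_coe.2 ((hH1 Q).2 ⟨hQ, hQ1⟩), hne, rfl⟩
      · left
        simp only [Set.mem_iUnion]
        exact ⟨Q, (hH2 Q).2 ⟨hQ, hQ1⟩, hl, inf_le_right⟩
    · left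
      simp only [Set.mem_iUnion]
      exact ⟨P, (hH2 P).2 ⟨hP, hP1⟩, hl, inf_le_left⟩
  have hfin1 : (⋃ S ∈ H2, {l ∈ LL K B | l ≤ S}).Finite :=
    (LL_finite K B).subset (by
      intro l hl
      simp only [Set.mem_iUnion] at hl
      obtain ⟨S, -, h, -⟩ := hl
      exact h)
  refine (Set.ncard_le_ncard hsub (hfin1.union (linesOf_finite _))).trans ?_
  refine (Set.ncard_union_le _ _).trans (Nat.add_le_add ?_ ?_)
  · have h1 : (⋃ S ∈ H2, {l ∈ LL K B | l ≤ S}).ncard ≤ ∑ S ∈ H2, {l ∈ LL K B | l ≤ S}.ncard :=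
      Finset.set_ncard_biUnion_le H2 (fun S => {l ∈ LL K B | l ≤ S})
    refine h1.trans ?_
    refine (Finset.sum_le_sum (fun S hS => few_lines hK (hpl S ((hH2 S).1 hS).1)
      ((hH2 S).1 hS).2)).trans ?_
    rw [Finset.sum_const, smul_eq_mul]
  · exact linesOf_ncard_le H1

/-- The distance to the lines of a family of planes. -/
theorem dist_ge' {K B r : ℕ} (hK : 0 < K) {H : Finset Flat} (hpl : ∀ P ∈ H, IsPlane P)
    (hpar : ∀ P ∈ H, ∀ Q ∈ H, P ≠ Q → P.direction ≠ Q.direction)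
    (hl : ∀ l, IsLine l → {P ∈ (H : Set Flat) | l ≤ P}.ncard ≤ 2)
    (hr : ∀ p : E3, {P ∈ (H : Set Flat) | p ∈ P}.ncard ≤ r) :
    ((LL K B).ncard : ℝ) - (((r * B).choose 2 : ℕ) : ℝ) - (4 * K + 1) ^ 2 / 8 ≤
      ((symmDiff (LL K B) (linesOf (H : Set Flat))).ncard : ℝ) := by
  classical
  set H1 : Finset Flat := H.filter (fun P => P ∈ HH K B) with hH1
  set H2 : Finset Flat := H.filter (fun P => P ∉ HH K B) with hH2
  have h1 := common_le' (B := B) hK hpl (H1 := H1) (H2 := H2)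
    (fun P => by rw [hH1, Finset.mem_filter]) (fun P => by rw [hH2, Finset.mem_filter])
  have hcard : H1.card + H2.card = H.card := by
    rw [hH1, hH2]
    exact Finset.card_filter_add_card_filter_not _
  have hfew : H1.card ≤ r * B :=
    few_common hr (Finset.filter_subset _ _) (fun P hP => (Finset.mem_filter.1 hP).2)
  have hfew2 : H1.card.choose 2 ≤ (r * B).choose 2 := Nat.choose_le_choose 2 hfew
  have h2 := linesOf_ncard H
    (fun P hP Q hQ hne => isLine_inf_of_plane (hpl P hP) (hpl Q hQ) (hpar P hP Q hQ hne)) hl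
  have e1 := Set.ncard_inter_add_ncard_sdiff_eq_ncard (LL K B) (linesOf (H : Set Flat))
    (LL_finite K B)
  have e2 := Set.ncard_inter_add_ncard_sdiff_eq_ncard (linesOf (H : Set Flat)) (LL K B)
    (linesOf_finite H)
  rw [Set.inter_comm] at e2
  have e3 : (symmDiff (LL K B) (linesOf (H : Set Flat))).ncard =
      (LL K B \ linesOf (H : Set Flat)).ncard + (linesOf (H : Set Flat) \ LL K B).ncard := by
    rw [Set.symmDiff_def]
    exact Set.ncard_union_eq (Set.disjoint_left.2 (fun x hx hx' => hx'.2 hx.1))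
      ((LL_finite K B).subset Set.sdiff_subset) ((linesOf_finite H).subset Set.sdiff_subset)
  set I := (LL K B ∩ linesOf (H : Set Flat)).ncard
  set a := H1.card
  set c := H2.card
  have hc' : (H.card : ℝ) = a + c := by exact_mod_cast hcard.symm
  have e1' : (I : ℝ) + (LL K B \ linesOf (H : Set Flat)).ncard = (LL K B).ncard := by
    exact_mod_cast e1
  have e2' : (I : ℝ) + (linesOf (H : Set Flat) \ LL K B).ncard =
      (((a : ℝ) + c) * ((a : ℝ) + c - 1) / 2 : ℝ) := by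
    rw [← hc', ← Nat.cast_choose_two, ← h2]
    exact_mod_cast e2
  have h1' : (I : ℝ) ≤ c * K + (a : ℝ) * (a - 1) / 2 := by
    have h3 : (I : ℝ) ≤ ((c * K + a.choose 2 : ℕ) : ℝ) := by exact_mod_cast h1
    push_cast [Nat.cast_choose_two] at h3
    exact h3
  have h4 : (a : ℝ) * (a - 1) / 2 ≤ (((r * B).choose 2 : ℕ) : ℝ) := by
    rw [← Nat.cast_choose_two]
    exact_mod_cast hfew2
  rw [e3]
  push_cast
  have e4 : (0 : ℝ) ≤ (c - (4 * K + 1) / 2) ^ 2 := sq_nonneg _
  have e5 : (0 : ℝ) ≤ (a : ℝ) * c := by positivity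
  nlinarith

/-- three planes from each block -/
noncomputable def H3 (K B : ℕ) : Finset Flat := by
  classical exact ((Finset.range B) ×ˢ (Finset.range 3)).image (fun x => pl K B (K * x.1 + x.2))

lemma mem_H3 {K B : ℕ} {P : Flat} :
    P ∈ H3 K B ↔ ∃ β i, β < B ∧ i < 3 ∧ pl K B (K * β + i) = P := by
  classical
  unfold H3
  rw [Finset.mem_image]
  constructor
  · rintro ⟨⟨β, i⟩, h, rfl⟩
    rw [Finset.mem_product, Finset.mem_range, Finset.mem_range] at h
    exact ⟨β, i, h.1, h.2, rfl⟩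
  · rintro ⟨β, i, h1, h2, rfl⟩
    exact ⟨(β, i), Finset.mem_product.2 ⟨Finset.mem_range.2 h1, Finset.mem_range.2 h2⟩, rfl⟩

lemma idx_lt {K B β i : ℕ} (hK : 3 ≤ K) (hβ : β < B) (hi : i < 3) : K * β + i < K * B := by
  have h1 : K * (β + 1) ≤ K * B := Nat.mul_le_mul_left K hβ
  have h2 : K * (β + 1) = K * β + K := by ring
  omega

lemma idx_div {K β i : ℕ} (hK : 3 ≤ K) (hi : i < 3) : (K * β + i) / K = β := by
  rw [Nat.mul_add_div (by omega), Nat.div_eq_of_lt (by omega), Nat.add_zero]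

lemma idx_mod {K β i : ℕ} (hK : 3 ≤ K) (hi : i < 3) : (K * β + i) % K = i := by
  rw [Nat.mul_add_mod, Nat.mod_eq_of_lt (by omega)]

lemma H3_sub {K B : ℕ} (hK : 3 ≤ K) : H3 K B ⊆ HH K B := by
  intro P hP
  obtain ⟨β, i, hβ, hi, rfl⟩ := mem_H3.1 hP
  exact mem_HH.2 ⟨_, idx_lt hK hβ hi, rfl⟩

lemma card_H3 {K B : ℕ} (hK : 3 ≤ K) : (H3 K B).card = 3 * B := by
  classical
  unfold H3
  rw [Finset.card_image_of_injOn, Finset.card_product, Finset.card_range, Finset.card_range,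
    mul_comm]
  rintro ⟨β, i⟩ h ⟨β', i'⟩ h' heq
  rw [Finset.mem_coe, Finset.mem_product, Finset.mem_range, Finset.mem_range] at h h'
  have h1 := pl_inj K B heq
  simp only at h1 h h'
  have h2 := idx_div (β := β) hK h.2
  have h3 := idx_div (β := β') hK h'.2
  have h4 := idx_mod (β := β) hK h.2
  have h5 := idx_mod (β := β') hK h'.2
  rw [h1] at h2 h4
  exact Prod.ext (h2.symm.trans h3) (h4.symm.trans h5)

lemma H3_pt {K B : ℕ} (hK : 3 ≤ K) (p : E3) : {P ∈ (H3 K B : Set Flat) | p ∈ P}.ncard ≤ 3 := by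
  classical
  set S : Finset ℕ := (Finset.range (K * B)).filter (fun t => t % K < 3 ∧ p ∈ pl K B t) with hS
  have h1 : S.card ≤ 3 := by
    by_contra hcon
    push Not at hcon
    have hb := concurrent_block (K := K) (B := B) (p := p) (S := S)
      (fun t ht => by
        rw [hS, Finset.mem_filter, Finset.mem_range] at ht
        exact ⟨ht.1, ht.2.2⟩) (by omega)
    have h2 : S.card ≤ (Finset.range 3).card := by
      apply Finset.card_le_card_of_injOn (fun t => t % K)
      · intro t ht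
        rw [Finset.mem_coe, hS, Finset.mem_filter] at ht
        exact Finset.mem_coe.2 (Finset.mem_range.2 ht.2.1)
      · intro s hs t ht hst
        have h3 := hb s hs t ht
        rw [← Nat.div_add_mod s K, ← Nat.div_add_mod t K, h3]
        simp only at hst
        rw [hst]
    rw [Finset.card_range] at h2
    omega
  have hsub : {P ∈ (H3 K B : Set Flat) | p ∈ P} ⊆ ((S.image (pl K B) : Finset Flat) : Set Flat) := by
    rintro P ⟨hP, hpP⟩
    obtain ⟨β, i, hβ, hi, rfl⟩ := mem_H3.1 (Finset.mem_coe.1 hP)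
    rw [Finset.mem_coe, Finset.mem_image]
    refine ⟨K * β + i, ?_, rfl⟩
    rw [hS, Finset.mem_filter, Finset.mem_range, idx_mod hK hi]
    exact ⟨idx_lt hK hβ hi, hi, hpP⟩
  refine (Set.ncard_le_ncard hsub (Finset.finite_toSet _)).trans ?_
  rw [Set.ncard_coe_finset]
  exact Finset.card_image_le.trans h1

lemma HH_plane {K B : ℕ} {P : Flat} (hP : P ∈ HH K B) : IsPlane P := by
  obtain ⟨t, -, rfl⟩ := mem_HH.1 hP
  exact isPlane_plane _ _

lemma HH_dir {K B : ℕ} {P Q : Flat} (hP : P ∈ HH K B) (hQ : Q ∈ HH K B) (hne : P ≠ Q) :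
    P.direction ≠ Q.direction := by
  obtain ⟨a, -, rfl⟩ := mem_HH.1 hP
  obtain ⟨b, -, rfl⟩ := mem_HH.1 hQ
  intro h
  have hab : a ≠ b := fun h' => hne (by rw [h'])
  have hline := pl_line (K := K) (B := B) hab
  have h1 : (pl K B a ⊓ pl K B b).direction = (pl K B a).direction := by
    have hne' : ((pl K B a ⊓ pl K B b : Flat) : Set E3).Nonempty :=
      (AffineSubspace.nonempty_iff_ne_bot _).2 hline.1
    obtain ⟨p, hp⟩ := hne'
    rw [AffineSubspace.direction_inf_of_mem hp.1 hp.2, ← h, inf_idem]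
  have h2 := hline.2
  rw [h1, (HH_plane hP).2] at h2
  omega

end Pool.Agent.Y823.JT
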